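import Pool.Agent.W904.PG.UNI
import Pool.Agent.W619.Y.Stm10

/-!
# PG-UNIA (for helper619): if `Y` is uniruled, so is the product with curves (`A¹` version)
-/

set_option autoImplicit false
set_option linter.unusedSectionVars false
set_option linter.overlappingInstances false

universe u v

namespace Pool.Agent.W358.PG.UNIA

open scoped TensorProduct
open FF IntermediateField Pool.Agent.W619.PQ Pool.Agent.W619.PL Pool.Agent.W619.TW
  Pool.Agent.W603.LV Pool.Agent.W619.Y Pool.Agent.W904.PG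

section step1

variable {k : Type v} {L : Type u} [Field k] [IsAlgClosed k] [Field L] [Algebra k L]

theorem prodInj' (M P : IntermediateField k L) (d n : ℕ) (hM : Algebra.trdeg k M = d)
    (hL : Algebra.trdeg k L = (d + n : ℕ)) (hP : Algebra.trdeg k P ≤ n) (hsup : M ⊔ P = ⊤) :
    ∃ Φ : (P ⊗[k] M) →ₐ[k] L, Function.Injective Φ ∧ (∀ z : L, ∃ x y, z = Φ x / Φ y) ∧
      ∀ p : P, Φ (p ⊗ₜ[k] (1 : M)) = (p : L) := by
  obtain ⟨s, hs⟩ := exists_isTranscendenceBasis k M
  have h1 := T2 (k := k) (P := P) (M := M) (L := L) M.val _ hs (indep M P d n hM hL hP hsup s hs)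
  let Φ' := Algebra.TensorProduct.productLeftAlgHom (Algebra.ofId P L) M.val
  let Φ : (P ⊗[k] M) →ₐ[k] L := Φ'.restrictScalars k
  have hΦt : ∀ p m, Φ (p ⊗ₜ[k] m) = (p : L) * (m : L) := by
    intro p m
    show Algebra.TensorProduct.productLeftAlgHom (Algebra.ofId P L) M.val (p ⊗ₜ[k] m) = _
    simp [Algebra.ofId_apply]
  refine ⟨Φ, h1, ?_, fun p => (hΦt _ _).trans (by simp)⟩
  intro z
  have hz : z ∈ IntermediateField.adjoin k ((M : Set L) ∪ (P : Set L)) := by
    have h2 : M ⊔ P ≤ IntermediateField.adjoin k ((M : Set L) ∪ (P : Set L)) :=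
      sup_le (fun z hz => IntermediateField.subset_adjoin _ _ (Or.inl hz))
        (fun z hz => IntermediateField.subset_adjoin _ _ (Or.inr hz))
    rw [hsup] at h2
    exact h2 (show z ∈ (⊤ : IntermediateField k L) from trivial)
  rw [IntermediateField.mem_adjoin_iff_div] at hz
  obtain ⟨r, hr, t, ht, rfl⟩ := hz
  have h3 : Algebra.adjoin k ((M : Set L) ∪ (P : Set L)) ≤ Φ.range := by
    refine Algebra.adjoin_le ?_
    rintro z (hz | hz)
    · exact ⟨(1 : P) ⊗ₜ[k] ⟨z, hz⟩, (hΦt _ _).trans (by simp)⟩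
    · exact ⟨(⟨z, hz⟩ : P) ⊗ₜ[k] (1 : M), (hΦt _ _).trans (by simp)⟩
  obtain ⟨a, ha⟩ := h3 hr
  obtain ⟨b, hb⟩ := h3 ht
  exact ⟨a, b, by rw [← ha, ← hb]; rfl⟩

end step1

/-- `L` embeds into `Ω` if it is the field of fractions of `P ⊗ M`. -/
theorem embed' {k : Type v} {P M L R Ω : Type u} [Field k] [IsAlgClosed k] [Field P] [Field M]
    [Field L] [Field R] [Field Ω] [Algebra k P] [Algebra k M] [Algebra k L] [Algebra k R]
    [Algebra k Ω] (Φ : (P ⊗[k] M) →ₐ[k] L) (hΦ : Function.Injective Φ)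
    (hsurj : ∀ z : L, ∃ x y, z = Φ x / Φ y) (j : M →ₐ[k] R)
    (θ : (P ⊗[k] R) →ₐ[k] Ω) (hθ : Function.Injective θ) : ∃ e : L →ₐ[k] Ω,
      ∀ x, e (Φ x) = θ (Algebra.TensorProduct.map (AlgHom.id k P) j x) := by
  let i0 : Algebra (P ⊗[k] M) L := Φ.toRingHom.toAlgebra
  have hmap : ∀ x : P ⊗[k] M, algebraMap (P ⊗[k] M) L x = Φ x := fun _ => rfl
  have i1 : IsScalarTower k (P ⊗[k] M) L := IsScalarTower.of_algebraMap_eq fun c => by
    rw [hmap, AlgHom.commutes]
  have i2 : FaithfulSMul (P ⊗[k] M) L := (faithfulSMul_iff_algebraMap_injective _ _).2 hΦ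
  have i3 : IsFractionRing (P ⊗[k] M) L := IsFractionRing.of_field (P ⊗[k] M) L hsurj
  let Ψ : (P ⊗[k] M) →ₐ[k] (P ⊗[k] R) := Algebra.TensorProduct.map (AlgHom.id k P) j
  have hΨ : Function.Injective Ψ := by
    have := Module.Flat.lTensor_preserves_injective_linearMap (M := P) j.toLinearMap
      j.toRingHom.injective
    exact this
  refine ⟨IsFractionRing.liftAlgHom (A := P ⊗[k] M) (K := L) (g := θ.comp Ψ) (hθ.comp hΨ), ?_⟩
  intro x
  have h := IsFractionRing.lift_algebraMap (A := P ⊗[k] M) (K := L)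
    (g := (θ.comp Ψ).toRingHom) (hθ.comp hΨ) x
  exact h



section step2

variable {k : Type v} [Field k]

/-- the field of fractions of `P ⊗ M'(X)` is a rational function field -/
theorem ratl' {P M' Ω : Type u} [Field P] [Field M'] [Field Ω] [Algebra k P] [Algebra k M']
    [Algebra k Ω] (θ : (P ⊗[k] RatFunc M') →ₐ[k] Ω) (hs : ∀ z : Ω, ∃ x y, z = θ x / θ y)
    (N m : ℕ) (hP : Algebra.trdeg k P ≤ N) (hM : Algebra.trdeg k M' = m)
    (hΩ : ((N + m + 1 : ℕ) : Cardinal) ≤ Algebra.trdeg k Ω) (hPe : Algebra.EssFiniteType k P)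
    (hMe : Algebra.EssFiniteType k M') :
    ∃ N0 : IntermediateField k Ω, Algebra.EssFiniteType k N0 ∧
      Algebra.trdeg k N0 = (N + m : ℕ) ∧ ∃ g : Ω →ₐ[k] RatFunc N0,
        ∀ p : P, ∃ c : N0, g (θ (p ⊗ₜ[k] (1 : RatFunc M'))) = algebraMap N0 (RatFunc N0) c := by
  let iP : P →ₐ[k] Ω := θ.comp Algebra.TensorProduct.includeLeft
  let iR : RatFunc M' →ₐ[k] Ω := θ.comp Algebra.TensorProduct.includeRight
  let iM : M' →ₐ[k] Ω := iR.comp (IsScalarTower.toAlgHom k M' (RatFunc M'))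
  obtain ⟨N0, hN0⟩ : ∃ N : IntermediateField k Ω, N = iP.fieldRange ⊔ iM.fieldRange := ⟨_, rfl⟩
  let t : Ω := iR RatFunc.X
  have hmemP : ∀ p : P, iP p ∈ N0 := fun p => by
    rw [hN0]
    exact (le_sup_left : iP.fieldRange ≤ iP.fieldRange ⊔ iM.fieldRange) ⟨p, rfl⟩
  have hmemM : ∀ c : M', iM c ∈ N0 := fun c => by
    rw [hN0]
    exact (le_sup_right : iM.fieldRange ≤ iP.fieldRange ⊔ iM.fieldRange) ⟨c, rfl⟩
  have hgen : IntermediateField.adjoin N0 ({t} : Set Ω) = ⊤ := by
    have hN : ∀ z ∈ N0, z ∈ IntermediateField.adjoin N0 ({t} : Set Ω) := fun z hz =>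
      (IntermediateField.adjoin N0 ({t} : Set Ω)).algebraMap_mem ⟨z, hz⟩
    have ht : t ∈ IntermediateField.adjoin N0 ({t} : Set Ω) :=
      IntermediateField.subset_adjoin _ _ rfl
    have hpol : ∀ p : Polynomial M', iR (algebraMap (Polynomial M') (RatFunc M') p) ∈
        IntermediateField.adjoin N0 ({t} : Set Ω) := by
      intro p
      induction p using Polynomial.induction_on' with
      | add p q hp hq => rw [map_add, map_add]; exact add_mem hp hq
      | monomial n a =>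
        rw [← Polynomial.C_mul_X_pow_eq_monomial, map_mul, map_mul, map_pow, map_pow,
          RatFunc.algebraMap_C, RatFunc.algebraMap_X]
        refine mul_mem (hN _ ?_) (pow_mem ht n)
        exact hmemM a
    have hrat : ∀ g : RatFunc M', iR g ∈ IntermediateField.adjoin N0 ({t} : Set Ω) := by
      intro g
      rw [← RatFunc.num_div_denom g, map_div₀]
      exact div_mem (hpol _) (hpol _)
    have hten : ∀ x : P ⊗[k] RatFunc M', θ x ∈ IntermediateField.adjoin N0 ({t} : Set Ω) := by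
      intro x
      induction x using TensorProduct.induction_on with
      | zero => rw [map_zero]; exact zero_mem _
      | tmul p g =>
        have : p ⊗ₜ[k] g = (p ⊗ₜ[k] (1 : RatFunc M')) * ((1 : P) ⊗ₜ[k] g) := by
          rw [Algebra.TensorProduct.tmul_mul_tmul, mul_one, one_mul]
        rw [this, map_mul]
        exact mul_mem (hN _ (hmemP p)) (hrat g)
      | add x y hx hy => rw [map_add]; exact add_mem hx hy
    refine eq_top_iff.2 fun z _ => ?_
    obtain ⟨x, y, rfl⟩ := hs z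
    exact div_mem (hten x) (hten y)
  have htr : Algebra.trdeg k N0 ≤ (N + m : ℕ) := by
    rw [hN0]
    refine (trdeg_sup iP iM).trans ?_
    rw [hM, Nat.cast_add]
    exact add_le_add hP le_rfl
  have hadd := trdeg_add_eq k N0 (A := Ω)
  obtain ⟨a, ha⟩ := Cardinal.lt_aleph0.1 (htr.trans_lt Cardinal.natCast_lt_aleph0)
  have ha1 : a ≤ N + m := by rw [ha] at htr; exact_mod_cast htr
  have hacl : ∀ S : Set Ω, t ∈ acl N0 S → Algebra.trdeg N0 Ω ≤ Cardinal.mk S := by
    intro S hS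
    have h1 : Algebra.IsAlgebraic (Algebra.adjoin N0 S) Ω := by
      constructor
      intro z
      have h2 : IntermediateField.adjoin N0 ({t} : Set Ω) ≤ acl N0 S := by
        rw [IntermediateField.adjoin_le_iff]
        rintro _ rfl
        exact hS
      rw [hgen] at h2
      exact h2 (show z ∈ (⊤ : IntermediateField N0 Ω) from trivial)
    exact Algebra.IsAlgebraic.trdeg_le_cardinalMk N0 S
  have hc1 : Algebra.trdeg N0 Ω ≤ 1 := by
    have := hacl {t} (subset_acl _ rfl)
    rwa [Cardinal.mk_singleton] at this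
  obtain ⟨c, hc⟩ := Cardinal.lt_aleph0.1 (hc1.trans_lt Cardinal.one_lt_aleph0)
  have hc2 : c ≤ 1 := by rw [hc] at hc1; exact_mod_cast hc1
  rw [ha, hc] at hadd
  have hac : N + m + 1 ≤ a + c := by
    rw [← hadd] at hΩ
    exact_mod_cast hΩ
  have ht : Transcendental N0 t := by
    intro halg
    have h3 : t ∈ acl N0 (∅ : Set Ω) := by
      rw [mem_acl]
      obtain ⟨p, hp0, hp⟩ := halg
      refine ⟨p.map (algebraMap N0 (Algebra.adjoin N0 (∅ : Set Ω))), ?_, ?_⟩
      · exact Polynomial.map_ne_zero hp0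
      · rw [Polynomial.aeval_map_algebraMap]
        exact hp
    have h4 := hacl ∅ h3
    rw [Cardinal.mk_eq_zero, hc] at h4
    have h5 : c ≤ 0 := by exact_mod_cast h4
    omega
  refine ⟨N0, by rw [hN0]; exact ess_sup iP iM hPe hMe, ?_, ?_⟩
  · rw [ha]
    have : a = N + m := by omega
    rw [this]
  · let E : RatFunc N0 ≃ₐ[N0] Ω := (RatFunc.algEquivOfTranscendental t ht).trans
      ((IntermediateField.equivOfEq hgen).trans IntermediateField.topEquiv)
    refine ⟨(E.symm.toAlgHom).restrictScalars k, fun p => ⟨⟨iP p, hmemP p⟩, ?_⟩⟩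
    exact E.symm.commutes ⟨iP p, hmemP p⟩

end step2

theorem fin1' {k : Type v} {P M M' L : Type u} [Field k] [IsAlgClosed k] [Field P] [Field M]
    [Field L] [Field M'] [Algebra k P] [Algebra k M] [Algebra k L] [Algebra k M']
    (Φ : (P ⊗[k] M) →ₐ[k] L) (hΦ : Function.Injective Φ)
    (hsurj : ∀ z : L, ∃ x y, z = Φ x / Φ y) (j : M →ₐ[k] RatFunc M') (n m : ℕ)
    (hP : Algebra.trdeg k P ≤ n) (hm : Algebra.trdeg k M' = m)
    (hL : Algebra.trdeg k L = (n + m + 1 : ℕ)) (hPe : Algebra.EssFiniteType k P)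
    (hess : Algebra.EssFiniteType k M') (Bd : Place k L → Prop)
    (hBd : ∀ v : Place k L, (∀ p : P, v.ord (Φ (p ⊗ₜ[k] (1 : M))) = 0) → ¬ Bd v) :
    IsA1Uniruled k L (n + m + 1) Bd := by
  have hdom : IsDomain (P ⊗[k] RatFunc M') := dom
  obtain ⟨e, he⟩ := embed' Φ hΦ hsurj j
    (IsScalarTower.toAlgHom k (P ⊗[k] RatFunc M') (FractionRing (P ⊗[k] RatFunc M')))
    (IsFractionRing.injective (P ⊗[k] RatFunc M') (FractionRing (P ⊗[k] RatFunc M')))
  obtain ⟨N0, h1, h2, g, hg⟩ := ratl'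
    (IsScalarTower.toAlgHom k (P ⊗[k] RatFunc M') (FractionRing (P ⊗[k] RatFunc M'))) (by
      intro z
      obtain ⟨x, y, -, rfl⟩ := IsFractionRing.div_surjective (A := P ⊗[k] RatFunc M') z
      exact ⟨x, y, rfl⟩) n m hP hm (by
      have h3 := trdeg_le_of_injective e e.toRingHom.injective
      rw [hL] at h3
      exact h3) hPe hess
  refine ⟨N0, inferInstance, inferInstance, g.comp e, h1, ?_, ?_⟩
  · rw [h2]
    push_cast
    ring
  · intro w _ v r hr hwv
    refine hBd v fun p => ?_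
    have h3 := hwv (Φ (p ⊗ₜ[k] (1 : M)))
    obtain ⟨c, hc⟩ := hg p
    have h4 : (g.comp e) (Φ (p ⊗ₜ[k] (1 : M))) = algebraMap N0 (RatFunc N0) c := by
      rw [← hc]
      show g (e (Φ (p ⊗ₜ[k] (1 : M)))) = _
      rw [he]
      congr 2
      rw [Algebra.TensorProduct.map_tmul, map_one]
      rfl
    rw [h4] at h3
    have h5 : w.ord (algebraMap N0 (RatFunc N0) c) = 0 := by
      by_cases hc0 : c = 0
      · rw [hc0, map_zero]
        exact w.ord_zero
      · exact w.ord_const hc0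
    rw [h5] at h3
    rcases mul_eq_zero.1 h3.symm with h6 | h6
    · exfalso
      have : r = 0 := by exact_mod_cast h6
      omega
    · exact h6

theorem main1' {k : Type v} {L : Type u} [Field k] [IsAlgClosed k] [Field L] [Algebra k L]
    (M P : IntermediateField k L) (d n : ℕ) (hM : Algebra.trdeg k M = d)
    (hL : Algebra.trdeg k L = (d + n : ℕ)) (hP : Algebra.trdeg k P ≤ n) (hsup : M ⊔ P = ⊤)
    (hPe : Algebra.EssFiniteType k P) (hU : IsUniruled k M d) (Bd : Place k L → Prop)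
    (hBd : ∀ v : Place k L, (∀ p ∈ P, v.ord p = 0) → ¬ Bd v) : IsA1Uniruled k L (d + n) Bd := by
  obtain ⟨M', iF, iA, hess, htr, ⟨j⟩⟩ := hU
  have hm : ∃ m : ℕ, Algebra.trdeg k M' = m := by
    have h1 : Algebra.trdeg k M' ≤ d := by
      rw [← htr]
      exact le_self_add
    obtain ⟨m, hm⟩ := Cardinal.lt_aleph0.1 (h1.trans_lt Cardinal.natCast_lt_aleph0)
    exact ⟨m, hm⟩
  obtain ⟨m, hm⟩ := hm
  have hmd : m + 1 = d := by
    rw [hm] at htr
    exact_mod_cast htr
  obtain ⟨Φ, hΦ, hsurj, hΦp⟩ := prodInj' M P d n hM hL hP hsup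
  have e : d + n = n + m + 1 := by omega
  rw [e] at hL ⊢
  refine fin1' Φ hΦ hsurj j n m hP hm hL hPe hess Bd fun v hv => hBd v fun p hp => ?_
  have := hv ⟨p, hp⟩
  rw [hΦp] at this
  exact this

theorem main : S_UNIA.{u, v} := by
  intro k L _ _ _ _ _ d n M F hF hM hL hsup hU
  have hfg : (⨆ i, F i).FG := IntermediateField.fg_iSup fun i =>
    IntermediateField.essFiniteType_iff.1 (hF i).ess
  have h1 : ∀ i, ∃ f : F i, Transcendental k f := fun i => (hF i).exists_transcendental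
  choose f hf using h1
  have h2 : (⨆ i, F i) ≤ acl k (Set.range fun i => (f i : L)) := by
    refine iSup_le fun i => ?_
    have h3 := le_acl_of_basis (F i) _ (IsFF.basis (hf i))
    refine h3.trans (acl_mono ?_)
    rintro _ ⟨_, rfl⟩
    exact ⟨i, rfl⟩
  have h0 : ∀ i, F i ≤ ⨆ i, F i := fun i => le_iSup F i
  generalize (⨆ i, F i) = P at *
  have hPe : Algebra.EssFiniteType k P := IntermediateField.essFiniteType_iff.2 hfg
  have hP : Algebra.trdeg k P ≤ n := by
    refine (trdeg_le_acl _ _ h2).trans ?_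
    have h4 := Cardinal.mk_range_le_lift (f := fun i : Fin n => (f i : L))
    simpa using h4
  refine main1' M P d n hM hL hP hsup hPe hU _ ?_
  rintro v hv ⟨i, z, hz, hne⟩
  exact hne (hv z (h0 i hz))

end Pool.Agent.W358.PG.UNIA
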